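import Pool.Agent.Helper24.SE.ThickF
import Pool.Graph.R_pool_sql_team_seeded_2aa45f1a.Q263.KT.Defs

/-!
# Kimura-finiteness of noncommutative Chow motives and exceptional sets with a power saving

Let `C` be the category of Chow motives over `ℚ` with rational coefficients, `N = NChow(ℚ)_ℚ` the category of
noncommutative Chow motives over `ℚ`, and `Φ : C → N` the functor with `Φ(h(X)) = U(perf_dg(X))_ℚ` (Tabuada); it
identifies a motive with its Tate twists. An object of `N` is Kimura-finite (`IsKimura`) if it is the direct sum
of an object with an exterior power zero and an object with a symmetric power zero.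

Let `Geo` be the set of the smooth proper dg categories `A` over number fields `k` which are of geometric
origin: `U(A)_ℚ` is a direct summand of `U(perf_dg(X))_ℚ` for a smooth projective scheme `X` over `k`. For
example `A` can be `perf_dg(X)` or an admissible subcategory of it. Let `Dim d A` be the statement that `X` can be
chosen of dimension at most `d`.

For a separated scheme `X` of finite type over `ℚ` let `W(X)` be its weight complex with compact supports
(Gillet, Soulé), a bounded complex in `C`, well defined up to homotopy. For `F ∈ ℤ[x_1, …, x_r]` let `D(F)` be the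
complement of the (singular, reducible) hypersurface `F = 0` in the affine space over `ℚ`. We call `F` an
exception if it is false that, in the homotopy category of `N`, the complex `Φ(W(D(F)))` is a direct summand of a
complex of Kimura-finite noncommutative motives. Let `Box(D, B)` be the finite set of the `F` of degree at most
`D` in each variable, for which the sum of the absolute values of the coefficients is at most `B`, and
`Exc(D, B)` the set of the exceptions in the box.

**Theorem.** (1) `U(A)_ℚ` is Kimura-finite for all `A` in `Geo` with `Dim d A` if and only if the exceptional sets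
in `d + 1` variables have a power saving: for some `ε > 0` there are infinitely many `D` and for these
infinitely many `B` such that `#Exc(D, B) ≤ #Box(D, B) ^ (1 - ε)`.

(2) `U(A)_ℚ` is Kimura-finite for all `A` in `Geo` if and only if the exceptional sets in `r` variables have a
power saving, for infinitely many `r`.

(3) A zero–one law: if there is one exception in `r` variables, then for every `ε > 0`, for all large
`D` and all large `B` (depending on `D`) there are more than `#Box(D, B) ^ (1 - ε)` exceptions.

(4) If the hypersurfaces `F = 0` and `G = 0` in the affine space over `ℚ` are disjoint and `F` is an exception,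
then `G` or `F G` is an exception.
-/

set_option autoImplicit false
set_option linter.checkUnivs false
set_option linter.unusedSectionVars false

open CategoryTheory Limits AlgebraicGeometry Filter MonoidalCategory Pool.Agent.Y116.UV
  Pool.Agent.Q282.UM Pool.Agent.Q282.UK Pool.Agent.Helper62.EC Pool.Agent.Helper24.KD

open Pool.Agent.Q263.KT (IsKimura)

open Pool.Agent.Helper24.SE (Box Exc Saving)

universe v u v' u'

namespace Pool.Agent.Results.MP_6e5bed_ag.PowerSaving

/-- The complement `D(F) : F ≠ 0` in the affine space over `ℚ`. -/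
noncomputable def princ {r : ℕ} (F : MvPolynomial (Fin r) ℤ) : Sch ℚ :=
  aff ℚ (Localization.Away (MvPolynomial.map (algebraMap ℤ ℚ) F))

/-- The category `C` of Chow motives over `ℚ` and the tensor category `N` of noncommutative Chow motives
over `ℚ`, with

* the motives `h(X)`, the Tate twists `M(n)` and the weight complexes `W(X)` (`Weights`);
* the functor `Φ`;
* the dg categories `A : Geo` of geometric origin over number fields, the statements `Dim d A`, and the
  statements `Kim A`: `U(A)_ℚ` is Kimura-finite. -/
structure Mot where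
  C : Type u
  [cat : Category.{v} C]
  [pre : Preadditive C]
  [zero : HasZeroObject C]
  [bin : HasBinaryBiproducts C]
  [fin : HasFiniteBiproducts C]
  D : Weights ℚ C
  N : Type u'
  [cat' : Category.{v'} N]
  [pre' : Preadditive N]
  [lin' : Linear ℚ N]
  [mon' : MonoidalCategory N]
  [sym' : SymmetricCategory N]
  [zero' : HasZeroObject N]
  [bin' : HasBinaryBiproducts N]
  [fin' : HasFiniteBiproducts N]
  Φ : C ⥤ N
  [additive : Φ.Additive]
  Geo : Type
  Dim : ℕ → Geo → Prop
  Kim : Geo → Prop

attribute [instance] Mot.cat Mot.pre Mot.zero Mot.bin Mot.fin Mot.cat' Mot.pre' Mot.lin' Mot.mon'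
  Mot.sym' Mot.zero' Mot.bin' Mot.fin' Mot.additive

variable (M : Mot.{v, u, v', u'})

/-- The known properties.

* `weight`: the weight complexes;
* `kimura`: Kimura's theorem on sums and direct summands, in `N`;
* `twist`: `Φ(M(n)) ≅ Φ(M)`;
* `points`: the noncommutative motives `Φ(h(Y))`, `dim Y = 0`, are Kimura-finite;
* `dim`: every `A` in `Geo` satisfies `Dim d A` for some `d`, and then for all larger `d`;
* `model`: if `Dim d A` then there is a smooth projective scheme `X` over `ℚ` with `dim X ≤ d` such that `U(A)_ℚ` is
  Kimura-finite if `Φ(h(X))` is (`X` is the given scheme over `k`, considered as a scheme over `ℚ`);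
* `perf`: if `X` is smooth and projective over `ℚ` of dimension at most `d`, then `A = perf_dg(X)` is in `Geo`, and
  it satisfies `Dim d A`. -/
structure Known : Prop where
  weight : IsWeightComplex M.D
  kimura : IsThick (IsKimura (C := M.N))
  twist : ∀ n : ℤ, Nonempty (M.D.tw n ⋙ M.Φ ≅ M.Φ)
  points : ∀ Y : Sch ℚ, IsSmoothProjective Y → topologicalKrullDim Y.left ≤ (0 : ℕ) →
    IsKimura (M.Φ.obj (M.D.h Y))
  dim : ∀ A : M.Geo, ∃ d₀ : ℕ, ∀ d : ℕ, d₀ ≤ d → M.Dim d A
  model : ∀ (A : M.Geo) (d : ℕ), M.Dim d A → ∃ X : Sch ℚ, IsSmoothProjective X ∧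
    topologicalKrullDim X.left ≤ d ∧ (IsKimura (M.Φ.obj (M.D.h X)) → M.Kim A)
  perf : ∀ (X : Sch ℚ) (d : ℕ), IsSmoothProjective X → topologicalKrullDim X.left ≤ d →
    ∃ A : M.Geo, M.Dim d A ∧ (M.Kim A ↔ IsKimura (M.Φ.obj (M.D.h X)))

/-- `F` is an exception: it is false that `Φ(W(D(F)))` is, up to homotopy, a direct summand of a complex
of Kimura-finite noncommutative motives. -/
def Exception {r : ℕ} (F : MvPolynomial (Fin r) ℤ) : Prop :=
  ¬ TermsIn (IsKimura (C := M.N)) (onHK M.Φ (M.D.W (princ F)))

variable {M} in
lemma low (hM : Known M) (n : ℤ) (Y : Sch ℚ) (_ : n ≤ 0) (hY : IsSmoothProjective Y)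
    (hd : topologicalKrullDim Y.left ≤ (0 : ℕ)) :
    IsKimura (M.Φ.obj ((M.D.tw n).obj (M.D.h Y))) := by
  obtain ⟨e⟩ := hM.twist n
  exact hM.kimura.summand (IsSummand.of_iso (e.app (M.D.h Y))) (hM.points Y hY hd)

/-- **Kimura-finiteness of noncommutative Chow motives and exceptional sets with a power saving.** See the
explanations above. -/
theorem result (M : Mot.{v, u, v', u'}) (hM : Known M) :
    -- (1) dimension at most `d`
    (∀ d : ℕ, (∀ A : M.Geo, M.Dim d A → M.Kim A) ↔ Saving (r := d + 1) (Exception M)) ∧
    -- (2) all dimensions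
    ((∀ A : M.Geo, M.Kim A) ↔ ∃ᶠ r : ℕ in atTop, Saving (r := r) (Exception M)) ∧
    -- (3) the zero-one law
    (∀ (r : ℕ) (G : MvPolynomial (Fin r) ℤ), Exception M G → ∀ ε : ℝ, 0 < ε →
      ∀ᶠ D : ℕ in atTop, ∀ᶠ B : ℕ in atTop,
        ((Box r D B).ncard : ℝ) ^ (1 - ε) < ((Exc (r := r) (Exception M) D B).ncard : ℝ)) ∧
    -- (4) disjoint hypersurfaces
    ∀ (r : ℕ) (F G : MvPolynomial (Fin r) ℤ),
      Ideal.span {MvPolynomial.map (algebraMap ℤ ℚ) G} ⊔
        Ideal.span {MvPolynomial.map (algebraMap ℤ ℚ) F} = ⊤ →
      Exception M F → Exception M G ∨ Exception M (F * G) := by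
  have hd : ∀ d : ℕ, (∀ A : M.Geo, M.Dim d A → M.Kim A) ↔
      ∀ Y : Sch ℚ, IsSmoothProjective Y → topologicalKrullDim Y.left ≤ d →
        IsKimura (M.Φ.obj (M.D.h Y)) := by
    intro d
    constructor
    · intro h Y hY hd
      obtain ⟨A, h1, h2⟩ := hM.perf Y d hY hd
      exact h2.mp (h A h1)
    · intro h A hA
      obtain ⟨X, h1, h2, h3⟩ := hM.model A d hA
      exact h3 (h X h1 h2)
  have h1 : ∀ d : ℕ, (∀ A : M.Geo, M.Dim d A → M.Kim A) ↔
      Saving (r := d + 1) (Exception M) := fun d =>
    (hd d).trans (Pool.Agent.Helper24.SE.tf_dim_iff M.Φ hM.kimura hM.weight (low hM) d)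
  refine ⟨h1, ?_, fun r G hG ε hε => ?_, fun r F G hFG hF => ?_⟩
  · constructor
    · exact fun h => frequently_atTop.mpr fun a => ⟨a + 1, by omega, (h1 a).mp fun A _ => h A⟩
    · intro h A
      obtain ⟨d₀, h0⟩ := hM.dim A
      obtain ⟨r, hr, hrV⟩ := (h.and_eventually (eventually_ge_atTop (d₀ + 1))).exists
      obtain ⟨d, rfl⟩ : ∃ d, r = d + 1 := ⟨r - 1, by omega⟩
      exact (h1 d).mpr hr A (h0 d (by omega))
  · exact Pool.Agent.Helper24.SE.tf_full M.Φ hM.kimura hM.weight (low hM) hG hε
  · exact Pool.Agent.Helper24.SE.tf_disjoint M.Φ hM.kimura hM.weight (low hM) F G hFG hF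

end Pool.Agent.Results.MP_6e5bed_ag.PowerSaving
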