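import Pool.Agent.Helper91.SP.Main

/-!
# Exterior and symmetric powers detect Kimura-finiteness of noncommutative motives

`𝒜` is a `ℚ`-linear, idempotent complete, symmetric monoidal category with duals in which the
endomorphisms of the unit object are the rational multiples of the identity, and `F` is a
realisation: a symmetric monoidal functor to finite-dimensional super vector spaces over a field
`K` of characteristic zero (`SuperRealisation`). The example is the category `NChow(k)_ℚ` of
noncommutative Chow motives with periodic cyclic homology (`K = k`) if the characteristic is zero,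
and with topological periodic cyclic homology (of the base change to the perfect closure) in
positive characteristic; the unit object is `U(k)`, and its endomorphism ring is `K₀(k)_ℚ = ℚ`.

`T P n` is the `n`-th tensor power of `P`, `Adj P n s` says that `s` is the transposition of two
neighbouring factors, and `PowZero ε P n` that all morphisms `g` on `T P n` with `s ≫ g = ε • g` for
all these `s` are zero, i.e. that the `n`-th symmetric power (`ε = 1`) or exterior power (`ε = -1`)
of `P` is zero. `KimuraFinite M`: `M` is the direct sum of an object `P` with a vanishing exterior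
power and an object `Q` with a vanishing symmetric power. `IsPower ε M k i r` says that `N`, as a
direct summand of `T M k` by `i` and `r`, is the `k`-th symmetric power (`ε = 1`) or exterior power
(`ε = -1`) of `M`.

Theorem. Let `k ≥ 1` and let `N` be the `k`-th exterior power or the `k`-th symmetric power of `M`.
If `N ⊗ N` is Kimura-finite, then `M` is Kimura-finite. (If `N` is Kimura-finite, so is `N ⊗ N`, by
the theorem of Kimura on tensor products, which is not proved here.)

There is no condition on the parity or the dimension of `M`, and none on the realisation of `N`.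

Steps of the proof, for the exterior power, with `Z` the exterior power of degree `2k - 1`. (1) If
`a` is the projector of `T M (2k)` onto `Z ⊗ M`, `s` the antisymmetriser of `T M (2k)` and `e` the
product of the antisymmetrisers of the first and of the last `k` factors, then
`a e a ((2k - 1) a - (2k - 2) s) = a`; so `Z ⊗ M` is a direct summand of `N ⊗ N`. (2) If the
realisation of `Z` is not zero, `M` is Kimura-finite by tensor cancellation (a theorem of the
library). (3) If it is zero, the exterior power of `M` of degree `2k` is a direct summand of
`N ⊗ N` with realisation zero; as `N ⊗ N` is Kimura-finite, it is zero, and `M` is even.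
-/

open CategoryTheory MonoidalCategory Limits BraidedCategory

universe u v w

namespace Pool.Agent.Results.MP_6e5bed_ag.PowersDetectFiniteness

open Pool.Agent.TH90.Kim Pool.Agent.Helper91.SP

/-- If `N` is the `k`-th exterior or symmetric power of `M`, `k ≥ 1`, and `N ⊗ N` is
Kimura-finite, then `M` is Kimura-finite. -/
theorem result {𝒜 : Type u} [Category.{v} 𝒜] [MonoidalCategory 𝒜] [SymmetricCategory 𝒜]
    [Preadditive 𝒜] [MonoidalPreadditive 𝒜] [Linear ℚ 𝒜] [MonoidalLinear ℚ 𝒜]
    [IsIdempotentComplete 𝒜] [∀ X : 𝒜, HasRightDual X]
    (hunit : ∀ f : 𝟙_ 𝒜 ⟶ 𝟙_ 𝒜, ∃ q : ℚ, f = q • 𝟙 (𝟙_ 𝒜))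
    {K : Type w} [Field K] [CharZero K] (F : SuperRealisation 𝒜 K)
    {ε : ℚ} (hε : ε = 1 ∨ ε = -1) (M N : 𝒜) {k : ℕ} (hk : 1 ≤ k) {i : N ⟶ T M k} {r : T M k ⟶ N}
    (hN : IsPower ε M k i r) (h : KimuraFinite (N ⊗ N)) : KimuraFinite M := by
  obtain ⟨j, rfl⟩ : ∃ j, k = j + 1 := ⟨k - 1, by omega⟩
  exact main F.toReal hunit hε i r hN.ir
    (hN.sy_eq (by rcases hε with rfl | rfl <;> norm_num)) h

end Pool.Agent.Results.MP_6e5bed_ag.PowersDetectFiniteness
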