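import Pool.Agent.Helper91.GP2.Main
import Pool.Agent.Helper91.GP2.Lim

/-!
# The number of summands of the tensor powers and Kimura finiteness

`𝒜` is a `ℚ`-linear, idempotent complete, symmetric monoidal category with duals in which the
endomorphisms of the unit object are the rational multiples of the identity, and `F` is a
realisation: a symmetric monoidal functor to finite-dimensional super vector spaces over a field `K`
of characteristic zero (`SuperRealisation`). The examples are the category `NChow(k)_ℚ` of
noncommutative Chow motives with (topological) periodic cyclic homology, and Chow motives with a Weil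
cohomology. `T M n` is the `n`-th tensor power of `M`, and `IsSumOf X k` says that `X` is a direct
sum of `k` objects which are not zero.

Theorem (a gap). Let the realisation of `M` be purely even or purely odd, of dimension `d`.

(1) If `M` is finite-dimensional in the sense of Kimura, then `T M n` is never a direct sum of more
than `d ^ n` objects which are not zero.

(2) If it is not, then for every `n` the object `T M n` is a direct sum of at least
`(d + 2) ^ n / (n + 1) ^ ((d + 2) ^ 2)` objects which are not zero.

(3) Hence every single `n` with `d ^ n * (n + 1) ^ ((d + 2) ^ 2) < (d + 2) ^ n`, i.e. every large `n`,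
decides: `M` is finite-dimensional if and only if `T M n` is not a direct sum of more than `d ^ n`
objects which are not zero.

The growth rate `d + 2` cannot be improved for general tensor categories: the standard representation
of `GL(d+1|1)`, with the realisation of Duflo and Serganova, is not Kimura-finite, and its `n`-th power
has dimension `(d + 2) ^ n`. (This remark is not part of the theorem.)

Proof of (2). Let `M` be even (the odd case is the same with signs) and not finite-dimensional. Let
`I n` be the ideal of the elements of `ℚ[S_n]` which act as zero on `T M n`. The realisation, and the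
fact that the power `Λ ^ (d + 1) M` is not zero, show that `I n = 0` for `n ≤ d + 1`. Contracting one
factor shows that `E ((J + d) x)` is in `I n` for `x` in `I (n + 1)`, where `J` is the
Jucys-Murphy element, the sum of the transpositions which move the last factor, and `E` the conditional
expectation `ℚ[S_(n+1)] → ℚ[S_n]`. It is shown by induction that `I n` acts as zero on the functions of
words of length `n` in `d + 1` even letters and one odd letter, i.e. on the `n`-th tensor power of the
super vector space `ℚ ^ (d+1|1)`: for `x` in `I (n + 1)` the element `E ((x (J + d))^* x (J + d))` is in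
`I n`, so its trace on words is zero, and this trace is a sum of squares, which shows that `x (J + d)`
acts as zero. It remains to show that a function `v` on words of length `n + 1 ≥ d + 2` is zero if all
`(J + d) g v` are zero. Let `A` be the sum of the transpositions of an even position `j` with the odd
positions of a word, and `m` their number. Then `(A - 1) (A + m) = 0` at this word, and the sum `B` of
the transpositions of `j` with the other even positions satisfies `B (A + m) v = - (d + 1) (A + m) v`
there. But `- (d + 1)` is not an eigenvalue of the Jucys-Murphy element on words in `d + 1` even letters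
(a trace formula again), so `(A + m) v = 0`; a sum of squares shows that a transposition of an even and
an odd position acts by `- 1`; and then `(J + d) v = 0` gives `(d - n) v = 0` at words with an odd letter.
Words without odd letters are similar. Therefore at least as many primitive
idempotents of `ℚ[S_n]` act as nonzero idempotents on `T M n` as on the words; on the latter the
rank of a primitive idempotent is at most `(n + 1) ^ ((d + 2) ^ 2)`, the dimension of the commutant.
-/

open CategoryTheory MonoidalCategory Limits BraidedCategory

universe u v w

namespace Pool.Agent.Results.MP_6e5bed_ag.SummandsOfPowers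

open Pool.Agent.TH90.AB Pool.Agent.TH90.Kim Pool.Agent.Helper91.GP

/-- The number of the summands of the tensor powers of an object of pure parity decides whether it is
Kimura-finite, with a gap. -/
theorem result {𝒜 : Type u} [Category.{v} 𝒜] [MonoidalCategory 𝒜] [SymmetricCategory 𝒜]
    [Preadditive 𝒜] [MonoidalPreadditive 𝒜] [Linear ℚ 𝒜] [MonoidalLinear ℚ 𝒜]
    [IsIdempotentComplete 𝒜] [∀ X : 𝒜, HasRightDual X]
    (hunit : ∀ f : 𝟙_ 𝒜 ⟶ 𝟙_ 𝒜, ∃ q : ℚ, f = q • 𝟙 (𝟙_ 𝒜))
    {K : Type w} [Field K] [CharZero K] (F : SuperRealisation 𝒜 K) (M : 𝒜)
    (hM : (∀ x : F.V M, F.par x = x) ∨ ∀ x : F.V M, F.par x = -x)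
    (d : ℕ) (hd : Module.finrank K (F.V M) = d) :
    (KimuraFinite M → ∀ n k, IsSumOf (T M n) k → k ≤ d ^ n) ∧
    (¬ KimuraFinite M → ∀ n, ∃ k, (d + 2) ^ n ≤ k * (n + 1) ^ ((d + 2) ^ 2) ∧
      IsSumOf (T M n) k) ∧
    (∀ n, d ^ n * (n + 1) ^ ((d + 2) ^ 2) < (d + 2) ^ n →
      (KimuraFinite M ↔ ∀ k, IsSumOf (T M n) k → k ≤ d ^ n)) ∧
    ∃ N, ∀ n ≥ N, d ^ n * (n + 1) ^ ((d + 2) ^ 2) < (d + 2) ^ n := by
  have h1 : KimuraFinite M → ∀ n k, IsSumOf (T M n) k → k ≤ d ^ n := by
    intro hK n k h
    rw [← hd]
    exact upp F.toReal hunit hK n k h
  have h2 : ¬ KimuraFinite M → ∀ n, ∃ k, (d + 2) ^ n ≤ k * (n + 1) ^ ((d + 2) ^ 2) ∧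
      IsSumOf (T M n) k := by
    intro hK n
    rw [← hd]
    rcases hM with hM | hM
    · exact gapS F.toReal hunit (δ := 1) (Or.inl rfl) (fun x => by
        rw [Rat.cast_one, one_smul]; exact hM x) hK n
    · exact gapS F.toReal hunit (δ := -1) (Or.inr rfl) (fun x => by
        rw [Rat.cast_neg, Rat.cast_one, neg_smul, one_smul]; exact hM x) hK n
  refine ⟨h1, h2, ?_, eventually_lt' d (d + 2) _ (by omega)⟩
  intro n hn
  refine ⟨fun hK k h => h1 hK n k h, fun h => ?_⟩
  by_contra hK
  obtain ⟨k, hk, hk'⟩ := h2 hK n
  have h3 := h k hk'
  have h4 := Nat.mul_le_mul_right ((n + 1) ^ ((d + 2) ^ 2)) h3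
  omega

end Pool.Agent.Results.MP_6e5bed_ag.SummandsOfPowers
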