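import Pool.Agent.Helper24.SE.ExtF
import Pool.Graph.R_pool_sql_team_seeded_2aa45f1a.Q263.KT.Defs

/-!
# Kimura-finiteness of noncommutative Chow motives and unions of two affine spaces

Let `k` be a perfect field, `C` the category of Chow motives over `k` with rational coefficients, `N = NChow(k)_ℚ`
the category of noncommutative Chow motives over `k`, and `Φ : C → N` the functor with `Φ(h(X)) = U(perf_dg(X))_ℚ`
(Tabuada); it identifies a motive with its Tate twists. An object of `N` is Kimura-finite (`IsKimura`) if it is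
the direct sum of an object with an exterior power zero and an object with a symmetric power zero.

Let `Geo` be the set of the smooth proper `k`-linear dg categories `A` of geometric origin: `U(A)_ℚ` is a direct
summand of `U(perf_dg(X))_ℚ` for a smooth projective scheme `X` over `k`, for example `A = perf_dg(X)` or an
admissible subcategory of it. Let `Dim d A` be the statement that `X` can be chosen of dimension at most `d`.

For a scheme `X` of finite type over `k` let `W(X)` be its weight complex with compact supports (Gillet, Soulé,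
Bondarko), a bounded complex in `C`. We say that `X` is noncommutatively Kimura-finite (`NCKim`) if the complex
`Φ(W(X))` is, in the homotopy category of `N`, a direct summand of a complex of Kimura-finite noncommutative
motives. For smooth projective `X` this is the Kimura-finiteness of `U(perf_dg(X))_ℚ`.

For `f ∈ k[x_1, …, x_N]` let `hyper f` be the hypersurface `f = 0`, which can be singular, reducible or
non-reduced, and `dbl f` the hypersurface `t ^ 2 - t = y f(x)` in the affine space of dimension `N + 2`.

**Theorem.** (1) `dbl f` is smooth, affine, and the union of two open subschemes isomorphic to the affine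
space of dimension `N + 1`.

(2) `dbl f` is noncommutatively Kimura-finite if and only if `hyper f` is.

(3) `U(A)_ℚ` is Kimura-finite for all `A` in `Geo` with `Dim d A` if and only if the schemes
`t ^ 2 - t = y f(x_1, …, x_(d+1))` are noncommutatively Kimura-finite.

(4) `U(A)_ℚ` is Kimura-finite for all `A` in `Geo` if and only if all schemes `t ^ 2 - t = y f(x)` are
noncommutatively Kimura-finite.

(5) The schemes `t ^ 2 - t = y f(x_1, x_2)` are noncommutatively Kimura-finite.
-/

set_option autoImplicit false
set_option linter.checkUnivs false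
set_option linter.unusedSectionVars false

open CategoryTheory Limits AlgebraicGeometry MonoidalCategory Pool.Agent.Y116.UV
  Pool.Agent.Q282.UM Pool.Agent.Q282.UK Pool.Agent.Helper95.WC

open Pool.Agent.Q263.KT (IsKimura)

universe v u v' u'

namespace Pool.Agent.Results.MP_6e5bed_ag.UnionsOfTwoAffineSpaces

/-- The category `C` of Chow motives over `k` and the tensor category `N` of noncommutative Chow motives
over `k`, with

* the motives `h(X)`, the Tate twists `M(n)` and the weight complexes `W(X)` (`Weights`);
* the functor `Φ`;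
* the dg categories `A : Geo` of geometric origin, the statements `Dim d A`, and the statements `Kim A`:
  `U(A)_ℚ` is Kimura-finite. -/
structure Mot (k : Type) [Field k] where
  C : Type u
  [cat : Category.{v} C]
  [pre : Preadditive C]
  [zero : HasZeroObject C]
  [bin : HasBinaryBiproducts C]
  [fin : HasFiniteBiproducts C]
  D : Weights k C
  N : Type u'
  [cat' : Category.{v'} N]
  [pre' : Preadditive N]
  [lin' : Linear ℚ N]
  [mon' : MonoidalCategory N]
  [sym' : SymmetricCategory N]
  [zero' : HasZeroObject N]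
  [bin' : HasBinaryBiproducts N]
  [fin' : HasFiniteBiproducts N]
  Φ : C ⥤ N
  [additive : Φ.Additive]
  Geo : Type
  Dim : ℕ → Geo → Prop
  Kim : Geo → Prop

attribute [instance] Mot.cat Mot.pre Mot.zero Mot.bin Mot.fin Mot.cat' Mot.pre' Mot.lin' Mot.mon'
  Mot.sym' Mot.zero' Mot.bin' Mot.fin' Mot.additive

variable {k : Type} [Field k] (M : Mot.{v, u, v', u'} k)

/-- The known properties.

* `weight`: the weight complexes;
* `kimura`: Kimura's theorem on sums and direct summands, in `N`;
* `twist`: `Φ(M(n)) ≅ Φ(M)`;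
* `curves`: `Φ(h(Y))` is Kimura-finite for `dim Y ≤ 1` (Kimura);
* `dim`: every `A` in `Geo` satisfies `Dim d A` for some `d`, and then for all larger `d`;
* `model`: if `Dim d A` then `U(A)_ℚ` is Kimura-finite if `Φ(h(X))` is, for a smooth projective scheme `X` over `k`
  with `dim X ≤ d` (`U(A)_ℚ` is a direct summand of `U(perf_dg(X))_ℚ`);
* `perf`: if `X` is smooth and projective then `A = perf_dg(X)` is in `Geo`, and it satisfies `Dim d A` if
  `dim X ≤ d`. -/
structure Known : Prop where
  weight : IsWeights M.D
  kimura : IsThick (IsKimura (C := M.N))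
  twist : ∀ n : ℤ, Nonempty (M.D.tw n ⋙ M.Φ ≅ M.Φ)
  curves : ∀ Y : Sch k, IsSmoothProjective Y → topologicalKrullDim Y.left ≤ (1 : ℕ) →
    IsKimura (M.Φ.obj (M.D.h Y))
  dim : ∀ A : M.Geo, ∃ d₀ : ℕ, ∀ d : ℕ, d₀ ≤ d → M.Dim d A
  model : ∀ (A : M.Geo) (d : ℕ), M.Dim d A → ∃ X : Sch k, IsSmoothProjective X ∧
    topologicalKrullDim X.left ≤ d ∧ (IsKimura (M.Φ.obj (M.D.h X)) → M.Kim A)
  perf : ∀ X : Sch k, IsSmoothProjective X → ∃ A : M.Geo,
    (∀ d : ℕ, topologicalKrullDim X.left ≤ d → M.Dim d A) ∧
      (M.Kim A ↔ IsKimura (M.Φ.obj (M.D.h X)))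

/-- `Φ(W(X))` is, up to homotopy, a direct summand of a complex of Kimura-finite noncommutative
motives. -/
def NCKim (X : Sch k) : Prop := TermsIn (IsKimura (C := M.N)) (onHK M.Φ (M.D.W X))

/-- `X` is a smooth affine scheme of finite type, and the union of two open subschemes which are
isomorphic to the affine space of dimension `N`. -/
structure IsTwoSpaces (N : ℕ) (X : Sch k) : Prop where
  ft : FT True X
  affine : IsAffine X.left
  smooth : Smooth X.hom
  glued : ∃ j₁ j₂ : aff k (MvPolynomial (Fin N) k) ⟶ X, IsOpenImmersion j₁.left ∧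
    IsOpenImmersion j₂.left ∧ Set.range j₁.left ∪ Set.range j₂.left = Set.univ

lemma two_spaces {N : ℕ} (f : MvPolynomial (Fin N) k) : IsTwoSpaces (N + 1) (dbl f) where
  ft := ft_aff True
  affine := (inferInstance : IsAffine (Spec (CommRingCat.of (Pool.Agent.Helper62.DB.Db f))))
  smooth := Pool.Agent.Helper62.DB.smooth0 f (addOne k N)
  glued := Pool.Agent.Helper62.DB.two_spaces0 f (addOne k N)

section

variable {M} (hM : Known M)

include hM

lemma nckim_iff (X : Sch k) :
    AllTwists M.D (fun K : HK M.C => TermsIn (IsKimura (C := M.N)) (onHK M.Φ K)) X ↔ NCKim M X :=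
  Pool.Agent.Helper24.SE.twists_iff M.Φ hM.kimura hM.twist X

lemma tw_iff (n : ℤ) (N : M.C) :
    IsKimura (M.Φ.obj ((M.D.tw n).obj N)) ↔ IsKimura (M.Φ.obj N) := by
  obtain ⟨e⟩ := hM.twist n
  exact ⟨hM.kimura.summand (IsSummand.of_iso (e.app N).symm),
    hM.kimura.summand (IsSummand.of_iso (e.app N))⟩

lemma geo_iff (d : ℕ) : (∀ A : M.Geo, M.Dim d A → M.Kim A) ↔
    ForVarieties M.D (fun N : M.C => IsKimura (M.Φ.obj N)) d := by
  constructor
  · intro h Y hY hd n
    obtain ⟨A, h1, h2⟩ := hM.perf Y hY
    exact (tw_iff hM n _).mpr (h2.mp (h A (h1 d hd)))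
  · intro h A hA
    obtain ⟨X, h1, h2, h3⟩ := hM.model A d hA
    exact h3 ((tw_iff hM 0 _).mp (h X h1 h2 0))

lemma geo_all : (∀ A : M.Geo, M.Kim A) ↔
    ForAllVarieties M.D (fun N : M.C => IsKimura (M.Φ.obj N)) := by
  constructor
  · intro h Y hY n
    obtain ⟨A, _, h2⟩ := hM.perf Y hY
    exact (tw_iff hM n _).mpr (h2.mp (h A))
  · intro h A
    obtain ⟨d, hd⟩ := hM.dim A
    exact (geo_iff hM d).mpr (fun Y hY _ n => h Y hY n) A (hd d le_rfl)

end

/-- **Kimura-finiteness of noncommutative Chow motives and unions of two affine spaces.** See the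
explanations above. -/
theorem result (k : Type) [Field k] [PerfectField k] (M : Mot.{v, u, v', u'} k) (hM : Known M) :
    -- (1) the schemes `t ^ 2 - t = y f(x)`
    (∀ (N : ℕ) (f : MvPolynomial (Fin N) k), IsTwoSpaces (N + 1) (dbl f)) ∧
    -- (2) one hypersurface
    (∀ (N : ℕ) (f : MvPolynomial (Fin N) k), NCKim M (dbl f) ↔ NCKim M (hyper f)) ∧
    -- (3) dimension at most `d`
    (∀ d : ℕ, (∀ A : M.Geo, M.Dim d A → M.Kim A) ↔
      ∀ f : MvPolynomial (Fin (d + 1)) k, NCKim M (dbl f)) ∧
    -- (4) all dimensions
    ((∀ A : M.Geo, M.Kim A) ↔ ∀ (N : ℕ) (f : MvPolynomial (Fin N) k), NCKim M (dbl f)) ∧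
    -- (5) two variables
    ∀ f : MvPolynomial (Fin 2) k, NCKim M (dbl f) := by
  have h := Pool.Agent.Helper24.SE.ext_map M.Φ hM.kimura
  have h1 : ForVarieties M.D (fun N : M.C => IsKimura (M.Φ.obj N)) 1 := fun X hX hd n =>
    (tw_iff hM n _).mpr (hM.curves X hX hd)
  have h0 : ForVarieties M.D (fun N : M.C => IsKimura (M.Φ.obj N)) 0 := fun X hX hd n =>
    h1 X hX (hd.trans (by exact_mod_cast Nat.zero_le 1)) n
  refine ⟨fun N f => two_spaces f, fun N f => ?_, fun d => ?_, ?_, fun f => ?_⟩
  · rw [← nckim_iff hM, ← nckim_iff hM]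
    exact dbl_hyper hM.weight h h0 f
  · simp only [← nckim_iff hM]
    exact (geo_iff hM d).trans (varieties_dbl hM.weight h h0 d)
  · simp only [← nckim_iff hM]
    exact (geo_all hM).trans (all_dbl hM.weight h h0)
  · rw [← nckim_iff hM]
    exact (varieties_dbl hM.weight h h0 1).mp h1 f

end Pool.Agent.Results.MP_6e5bed_ag.UnionsOfTwoAffineSpaces
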